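import Pool.Agent.H.MP_e0e142_ag.Lin

set_option autoImplicit false
open Matrix

namespace Pool.Agent.H.MP_e0e142_ag

theorem inj {p : ℝ} (hp : p ^ 2 = p + 1) (X : Mx) (hs : ∀ i j, X j i = X i j)
    (h0 : ∀ i j, ¬ (j = i + 1 ∨ i = j + 1 ∨ j = i + 2 ∨ i = j + 2) → X i j = 0)
    (h1 : ∀ i j, j = i + 2 ∨ j = i + 5 → (circulant (kk p) * X * circulant (kk p)) i j = 0) :
    X = 0 := by
  have key : ∀ c : Fin 11, X c (c + 1) = 0 ∧ X c (c + 2) = 0 := fun c => by
    have e : circulant (kk p) = (circulant (kk p)).submatrix (Equiv.addRight c) (Equiv.addRight c) := by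
      ext i j; simp [circulant_apply]
    have := inj0 hp (X.submatrix (Equiv.addRight c) (Equiv.addRight c)) (fun i j => hs _ _)
      (fun i j h => h0 _ _ (by
        simp only [Equiv.coe_addRight, add_right_comm _ c, add_left_inj]; exact h))
      (fun i j h => by
        rw [e, submatrix_mul_equiv, submatrix_mul_equiv]
        exact h1 _ _ (by simp only [Equiv.coe_addRight, add_right_comm _ c, add_left_inj]; exact h))
    simpa [add_comm] using this
  ext i j
  by_contra h
  have := mt (h0 i j) h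
  rw [not_not] at this
  rcases this with rfl | rfl | rfl | rfl
  exacts [h (key _).1, h ((hs _ _).trans (key _).1), h (key _).2, h ((hs _ _).trans (key _).2)]

theorem SK {p : ℝ} (hp : p ^ 2 = p + 1) : circulant (ss p) * circulant (kk p) = 1 := by
  rw [circulant_mul, ← circulant_single_one]
  congr 1
  ext i
  fin_cases i <;>
    simp only [mulVec, dotProduct, s11, circulant_apply, Fin.reduceFinMk, Fin.reduceSub, kk, ss, cons_val] <;>
    simp <;> nlinarith

theorem Spd {p : ℝ} (hp : p ^ 2 = p + 1) (h1 : 1.6 < p) (h2 : p < 1.7) : (circulant (ss p)).PosDef := by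
  let b : Fin 11 → ℝ := ![1, -(p + 1) / 2, 1, 0, 0, 0, 0, 0, 0, 0, 0]
  have e : circulant (ss p) = (7 - 17 / 4 * p) • (1 : Mx) +
      (2 * p - 3) • ((circulant b)ᴴ * circulant b) := by
    have : (circulant b)ᴴ = circulant fun i => b (0 - i) := by
      rw [conjTranspose_circulant]; simp
    rw [this, circulant_mul, ← circulant_single_one, ← circulant_smul,
      ← circulant_smul, ← circulant_add]
    congr 1
    ext i
    fin_cases i <;>
      simp only [mulVec, dotProduct, s11, circulant_apply, Fin.reduceFinMk, Fin.reduceSub, b, ss,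
        Pi.add_apply, Pi.smul_apply, cons_val] <;>
      simp <;> nlinarith
  rw [e]
  exact (PosDef.one.smul (by nlinarith)).add_posSemidef
    ((posSemidef_conjTranspose_mul_self _).smul (by linarith))

open scoped Matrix.Norms.Elementwise in
theorem iso (S K : Mx) (hSK : S * K = 1) (V : Submodule ℝ (Mx × Mx))
    (h : ∀ z ∈ V, z.1 * K + S * z.2 = 0 → z = 0) : ∃ ε > 0, ∀ z ∈ V, (∀ i j, |z.1 i j| < ε) →
      (S + z.1) * (K + z.2) = 1 → z = 0 := by
  let L : V →ₗ[ℝ] Mx := ((LinearMap.mulRight ℝ K).coprod (LinearMap.mulLeft ℝ S)).comp V.subtype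
  obtain ⟨C, hC, hL⟩ := L.exists_antilipschitzWith
    (LinearMap.ker_eq_bot'.mpr fun z hz => Subtype.ext (h z.1 z.2 hz))
  have hC' : (0 : ℝ) < C := hC
  refine ⟨1 / (22 * C), by positivity, fun z hz h1 h2 => ?_⟩
  have h3 : ‖z‖ ≤ C * ‖z.1 * K + S * z.2‖ := ZeroHomClass.bound_of_antilipschitz L hL ⟨z, hz⟩
  have h4 : z.1 * K + S * z.2 = -(z.1 * z.2) := by
    rw [add_mul, mul_add, mul_add, hSK] at h2
    rw [eq_neg_iff_add_eq_zero, ← add_left_inj 1, zero_add, ← h2, h2]
    conv_rhs => rw [← h2]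
    abel
  have h5 : ‖z.1 * z.2‖ ≤ 11 * (1 / (22 * C) * ‖z‖) := by
    refine (norm_le_iff (by positivity)).mpr fun i j => ?_
    rw [mul_apply]
    refine (norm_sum_le _ _).trans ((Finset.sum_le_card_nsmul _ _ (1 / (22 * C) * ‖z‖)
      fun k _ => ?_).trans (by simp))
    rw [norm_mul]
    exact mul_le_mul (h1 i k).le ((norm_entry_le_entrywise_sup_norm _).trans (norm_snd_le z))
      (norm_nonneg _) (by positivity)
  rw [h4, norm_neg] at h3
  have h6 : C * (11 * (1 / (22 * C) * ‖z‖)) = ‖z‖ / 2 := by field_simp; ring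
  have := mul_le_mul_of_nonneg_left h5 hC'.le
  exact norm_le_zero_iff.mp (by linarith)

def GG : SimpleGraph (Fin 11) := SimpleGraph.fromRel fun i j => j = i + 1 ∨ j = i + 3 ∨ j = i + 4
def HH : SimpleGraph (Fin 11) := SimpleGraph.fromRel fun i j => j = i + 1 ∨ j = i + 2

theorem one : ¬ IsPreconnected {S : Mx | S.PosDef ∧ (∀ i j, i ≠ j → ¬ GG.Adj i j → S⁻¹ i j = 0) ∧
    (∀ i j, i ≠ j → ¬ HH.Adj i j → S i j = 0) ∧ ∀ i, S i i = 1} := by
  obtain ⟨p, hp, h1, h2⟩ : ∃ p : ℝ, p ^ 2 = p + 1 ∧ 1.6 < p ∧ p < 1.7 := by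
    have h5 : √5 ^ 2 = 5 := Real.sq_sqrt (by norm_num)
    have := Real.sqrt_nonneg 5
    exact ⟨(√5 + 1) / 2, by nlinarith, by nlinarith, by nlinarith⟩
  have hi : (circulant (ss p))⁻¹ = circulant (kk p) := inv_eq_right_inv (SK hp)
  have hKS : circulant (kk p) * circulant (ss p) = 1 := mul_eq_one_comm.mp (SK hp)
  have g0 : ∀ i j, i ≠ j → ¬ GG.Adj i j → circulant (kk p) i j = 0 := fun i j a b => by
    have : ∀ i j : Fin 11, i ≠ j → ¬ (i ≠ j ∧ ((j = i + 1 ∨ j = i + 3 ∨ j = i + 4) ∨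
      i = j + 1 ∨ i = j + 3 ∨ i = j + 4)) → i - j = 2 ∨ i - j = 5 ∨ i - j = 6 ∨ i - j = 9 := by decide
    rcases this i j a b with h | h | h | h <;> rw [circulant_apply, h] <;> rfl
  have g1 : ∀ i j, i ≠ j → ¬ HH.Adj i j → circulant (ss p) i j = 0 := fun i j a b => by
    have : ∀ i j : Fin 11, i ≠ j → ¬ (i ≠ j ∧ ((j = i + 1 ∨ j = i + 2) ∨ i = j + 1 ∨ i = j + 2)) →
      i - j = 3 ∨ i - j = 4 ∨ i - j = 5 ∨ i - j = 6 ∨ i - j = 7 ∨ i - j = 8 := by decide
    rcases this i j a b with h | h | h | h | h | h <;> rw [circulant_apply, h] <;> rfl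
  have g2 : ∀ i, circulant (ss p) i i = 1 := fun i => by rw [circulant_apply, sub_self]; rfl
  let V : Submodule ℝ (Mx × Mx) :=
    { carrier := {z | (∀ i j, z.1 j i = z.1 i j) ∧ (∀ i j, ¬ HH.Adj i j → z.1 i j = 0) ∧
        ∀ i j, i ≠ j → ¬ GG.Adj i j → z.2 i j = 0}
      add_mem' := fun a b => ⟨fun i j => by simp [a.1 i j, b.1 i j],
        fun i j h => by simp [a.2.1 i j h, b.2.1 i j h], fun i j h g => by simp [a.2.2 i j h g, b.2.2 i j h g]⟩
      zero_mem' := by simp
      smul_mem' := fun c z a => ⟨fun i j => by simp [a.1 i j], fun i j h => by simp [a.2.1 i j h],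
        fun i j h g => by simp [a.2.2 i j h g]⟩ }
  obtain ⟨ε, hε, H⟩ := iso _ _ (SK hp) V fun z hz h => by
    have e : z.2 = -(circulant (kk p) * z.1 * circulant (kk p)) := by
      have := congrArg (circulant (kk p) * ·) h
      simp only [mul_add, ← mul_assoc, hKS, one_mul, mul_zero] at this
      exact eq_neg_of_add_eq_zero_right this
    have : z.1 = 0 := inj hp _ hz.1 (fun i j a => hz.2.1 i j fun b => a (by
      have := b.2; tauto)) fun i j a => by
        have t : ∀ i j : Fin 11, j = i + 2 ∨ j = i + 5 → i ≠ j ∧ ¬ (i ≠ j ∧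
          ((j = i + 1 ∨ j = i + 3 ∨ j = i + 4) ∨ i = j + 1 ∨ i = j + 3 ∨ i = j + 4)) := by decide
        have := hz.2.2 i j (t i j a).1 (t i j a).2
        rw [e] at this
        exact neg_eq_zero.mp this
    exact Prod.ext this (by simp [e, this])
  intro hc
  obtain ⟨S, ⟨s1, s2, s3, s4⟩, s5, s6⟩ := hc {S | ∀ i j, |S i j - circulant (ss p) i j| < ε}
    {circulant (ss p)}ᶜ (by
      simp only [Set.ofPred_forall]
      exact isOpen_iInter_of_finite fun i => isOpen_iInter_of_finite fun j =>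
        isOpen_lt (by fun_prop) continuous_const) isOpen_compl_singleton
    (fun S _ => by
      by_cases h : S = circulant (ss p)
      · exact .inl (by simpa [h] using hε)
      · exact .inr h)
    ⟨_, ⟨Spd hp h1 h2, by rwa [hi], g1, g2⟩, by simpa using hε⟩
    ⟨1, ⟨PosDef.one, fun i j h _ => by simp [h], fun i j h _ => by simp [h], by simp⟩, fun h => by
      have := congrFun (congrFun h 1) 0
      simp [circulant_apply, ss] at this
      linarith⟩
  have := H (S - circulant (ss p), S⁻¹ - circulant (kk p)) ⟨fun i j => by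
      have a := congrFun (congrFun s1.1 i) j
      have b := congrFun (congrFun (Spd hp h1 h2).1 i) j
      simp only [conjTranspose_apply, star_trivial] at a b
      simp only [Matrix.sub_apply, a, b], fun i j h => by
      by_cases e : i = j
      · simp only [Matrix.sub_apply, e, s4, g2, sub_self]
      · simp only [Matrix.sub_apply, s3 i j e h, g1 i j e h, sub_self],
    fun i j e h => by simp only [Matrix.sub_apply, s2 i j e h, g0 i j e h, sub_self]⟩ s5
    (by simpa using mul_nonsing_inv S ((isUnit_iff_isUnit_det S).mp s1.isUnit))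
  exact s6 (sub_eq_zero.mp (congrArg Prod.fst this))

theorem two {n : ℕ} (G H : SimpleGraph (Fin n)) (h : IsPreconnected {S : Matrix (Fin n) (Fin n) ℝ |
    S.PosDef ∧ (∀ i j, i ≠ j → ¬ G.Adj i j → S⁻¹ i j = 0) ∧ ∀ i j, i ≠ j → ¬ H.Adj i j → S i j = 0}) :
    IsPreconnected {S : Matrix (Fin n) (Fin n) ℝ | S.PosDef ∧ (∀ i j, i ≠ j → ¬ G.Adj i j → S⁻¹ i j = 0) ∧
      (∀ i j, i ≠ j → ¬ H.Adj i j → S i j = 0) ∧ ∀ i, S i i = 1} := by
  convert h.image (fun S => diagonal (fun i => (√(S i i))⁻¹) * S * diagonal fun i => (√(S i i))⁻¹) ?_ using 1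
  · ext T
    constructor
    · rintro ⟨a, b, c, d⟩
      exact ⟨T, ⟨a, b, c⟩, by simp [d]⟩
    · rintro ⟨S, ⟨a, b, c⟩, rfl⟩
      have p : ∀ i, 0 < √(S i i) := fun i => Real.sqrt_pos.mpr a.diag_pos
      have e : (diagonal fun i => (√(S i i))⁻¹)⁻¹ = diagonal fun i => √(S i i) :=
        inv_eq_left_inv (by simp [(p _).ne'])
      refine ⟨?_, fun i j x y => ?_, fun i j x y => by simp [c i j x y], fun i => ?_⟩
      · have := a.conjTranspose_mul_mul_same (B := diagonal fun i => (√(S i i))⁻¹)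
          (mulVec_injective_iff_isUnit.mpr (by simp [isUnit_diagonal, Pi.isUnit_iff, (p _).ne']))
        simpa using this
      · simp [Matrix.mul_inv_rev, e, b i j x y]
      · have := p i
        simp only [mul_diagonal, diagonal_mul]
        field_simp
        exact (Real.sq_sqrt a.diag_pos.le).symm
  · refine continuousOn_pi.mpr fun i => continuousOn_pi.mpr fun j => ?_
    simp only [mul_diagonal, diagonal_mul]
    have : ∀ i, ContinuousOn (fun S : Matrix (Fin n) (Fin n) ℝ => (√(S i i))⁻¹) {S | S.PosDef ∧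
        (∀ i j, i ≠ j → ¬ G.Adj i j → S⁻¹ i j = 0) ∧ ∀ i j, i ≠ j → ¬ H.Adj i j → S i j = 0} :=
      fun i => ContinuousOn.inv₀ (by fun_prop) fun S hS => (Real.sqrt_pos.mpr hS.1.diag_pos).ne'
    exact ((this i).mul (by fun_prop)).mul (this j)

end Pool.Agent.H.MP_e0e142_ag
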