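import Mathlib

set_option autoImplicit false
open Matrix

namespace Pool.Agent.H.MP_e0e142_ag

theorem lin {p x0 x1 x2 x3 x4 x5 x6 x7 x8 x9 x10 y0 y1 y2 y3 y4 y5 y6 y7 y8 y9 y10 : ℝ} (hp : p ^ 2 = p + 1)
    (e0 : ((3)*p)*x0 + ((3)*p)*x1 + ((3)+(-3)*p)*x2 + ((1)+(-1)*p)*x3 + ((-3)+(2)*p)*x4 + ((5)+(-3)*p)*x6 + ((-3)+(2)*p)*x8 + ((1)+(-1)*p)*x9 + ((3)+(-3)*p)*x10 + ((9))*y0 + ((1)*p)*y1 + ((-6)+(3)*p)*y2 + ((2)+(-1)*p)*y3 + ((5)+(-3)*p)*y4 + ((-3)+(2)*p)*y5 + ((-3)+(2)*p)*y6 + ((5)+(-3)*p)*y7 + ((2)+(-1)*p)*y8 + ((-6)+(3)*p)*y9 + ((1)*p)*y10 = 0)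
    (e1 : ((3)+(-3)*p)*x0 + ((3)*p)*x1 + ((3)*p)*x2 + ((3)+(-3)*p)*x3 + ((1)+(-1)*p)*x4 + ((-3)+(2)*p)*x5 + ((5)+(-3)*p)*x7 + ((-3)+(2)*p)*x9 + ((1)+(-1)*p)*x10 + ((1)*p)*y0 + ((9))*y1 + ((1)*p)*y2 + ((-6)+(3)*p)*y3 + ((2)+(-1)*p)*y4 + ((5)+(-3)*p)*y5 + ((-3)+(2)*p)*y6 + ((-3)+(2)*p)*y7 + ((5)+(-3)*p)*y8 + ((2)+(-1)*p)*y9 + ((-6)+(3)*p)*y10 = 0)
    (e2 : ((1)+(-1)*p)*x0 + ((3)+(-3)*p)*x1 + ((3)*p)*x2 + ((3)*p)*x3 + ((3)+(-3)*p)*x4 + ((1)+(-1)*p)*x5 + ((-3)+(2)*p)*x6 + ((5)+(-3)*p)*x8 + ((-3)+(2)*p)*x10 + ((-6)+(3)*p)*y0 + ((1)*p)*y1 + ((9))*y2 + ((1)*p)*y3 + ((-6)+(3)*p)*y4 + ((2)+(-1)*p)*y5 + ((5)+(-3)*p)*y6 + ((-3)+(2)*p)*y7 + ((-3)+(2)*p)*y8 + ((5)+(-3)*p)*y9 + ((2)+(-1)*p)*y10 = 0)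
    (e3 : ((-3)+(2)*p)*x0 + ((1)+(-1)*p)*x1 + ((3)+(-3)*p)*x2 + ((3)*p)*x3 + ((3)*p)*x4 + ((3)+(-3)*p)*x5 + ((1)+(-1)*p)*x6 + ((-3)+(2)*p)*x7 + ((5)+(-3)*p)*x9 + ((2)+(-1)*p)*y0 + ((-6)+(3)*p)*y1 + ((1)*p)*y2 + ((9))*y3 + ((1)*p)*y4 + ((-6)+(3)*p)*y5 + ((2)+(-1)*p)*y6 + ((5)+(-3)*p)*y7 + ((-3)+(2)*p)*y8 + ((-3)+(2)*p)*y9 + ((5)+(-3)*p)*y10 = 0)
    (e4 : ((-3)+(2)*p)*x1 + ((1)+(-1)*p)*x2 + ((3)+(-3)*p)*x3 + ((3)*p)*x4 + ((3)*p)*x5 + ((3)+(-3)*p)*x6 + ((1)+(-1)*p)*x7 + ((-3)+(2)*p)*x8 + ((5)+(-3)*p)*x10 + ((5)+(-3)*p)*y0 + ((2)+(-1)*p)*y1 + ((-6)+(3)*p)*y2 + ((1)*p)*y3 + ((9))*y4 + ((1)*p)*y5 + ((-6)+(3)*p)*y6 + ((2)+(-1)*p)*y7 + ((5)+(-3)*p)*y8 + ((-3)+(2)*p)*y9 + ((-3)+(2)*p)*y10 = 0)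
    (e5 : ((5)+(-3)*p)*x0 + ((-3)+(2)*p)*x2 + ((1)+(-1)*p)*x3 + ((3)+(-3)*p)*x4 + ((3)*p)*x5 + ((3)*p)*x6 + ((3)+(-3)*p)*x7 + ((1)+(-1)*p)*x8 + ((-3)+(2)*p)*x9 + ((-3)+(2)*p)*y0 + ((5)+(-3)*p)*y1 + ((2)+(-1)*p)*y2 + ((-6)+(3)*p)*y3 + ((1)*p)*y4 + ((9))*y5 + ((1)*p)*y6 + ((-6)+(3)*p)*y7 + ((2)+(-1)*p)*y8 + ((5)+(-3)*p)*y9 + ((-3)+(2)*p)*y10 = 0)
    (e6 : ((5)+(-3)*p)*x1 + ((-3)+(2)*p)*x3 + ((1)+(-1)*p)*x4 + ((3)+(-3)*p)*x5 + ((3)*p)*x6 + ((3)*p)*x7 + ((3)+(-3)*p)*x8 + ((1)+(-1)*p)*x9 + ((-3)+(2)*p)*x10 + ((-3)+(2)*p)*y0 + ((-3)+(2)*p)*y1 + ((5)+(-3)*p)*y2 + ((2)+(-1)*p)*y3 + ((-6)+(3)*p)*y4 + ((1)*p)*y5 + ((9))*y6 + ((1)*p)*y7 + ((-6)+(3)*p)*y8 + ((2)+(-1)*p)*y9 + ((5)+(-3)*p)*y10 = 0)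
    (e7 : ((-3)+(2)*p)*x0 + ((5)+(-3)*p)*x2 + ((-3)+(2)*p)*x4 + ((1)+(-1)*p)*x5 + ((3)+(-3)*p)*x6 + ((3)*p)*x7 + ((3)*p)*x8 + ((3)+(-3)*p)*x9 + ((1)+(-1)*p)*x10 + ((5)+(-3)*p)*y0 + ((-3)+(2)*p)*y1 + ((-3)+(2)*p)*y2 + ((5)+(-3)*p)*y3 + ((2)+(-1)*p)*y4 + ((-6)+(3)*p)*y5 + ((1)*p)*y6 + ((9))*y7 + ((1)*p)*y8 + ((-6)+(3)*p)*y9 + ((2)+(-1)*p)*y10 = 0)
    (e8 : ((1)+(-1)*p)*x0 + ((-3)+(2)*p)*x1 + ((5)+(-3)*p)*x3 + ((-3)+(2)*p)*x5 + ((1)+(-1)*p)*x6 + ((3)+(-3)*p)*x7 + ((3)*p)*x8 + ((3)*p)*x9 + ((3)+(-3)*p)*x10 + ((2)+(-1)*p)*y0 + ((5)+(-3)*p)*y1 + ((-3)+(2)*p)*y2 + ((-3)+(2)*p)*y3 + ((5)+(-3)*p)*y4 + ((2)+(-1)*p)*y5 + ((-6)+(3)*p)*y6 + ((1)*p)*y7 + ((9))*y8 + ((1)*p)*y9 + ((-6)+(3)*p)*y10 = 0)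
    (e9 : ((3)+(-3)*p)*x0 + ((1)+(-1)*p)*x1 + ((-3)+(2)*p)*x2 + ((5)+(-3)*p)*x4 + ((-3)+(2)*p)*x6 + ((1)+(-1)*p)*x7 + ((3)+(-3)*p)*x8 + ((3)*p)*x9 + ((3)*p)*x10 + ((-6)+(3)*p)*y0 + ((2)+(-1)*p)*y1 + ((5)+(-3)*p)*y2 + ((-3)+(2)*p)*y3 + ((-3)+(2)*p)*y4 + ((5)+(-3)*p)*y5 + ((2)+(-1)*p)*y6 + ((-6)+(3)*p)*y7 + ((1)*p)*y8 + ((9))*y9 + ((1)*p)*y10 = 0)
    (e10 : ((3)*p)*x0 + ((3)+(-3)*p)*x1 + ((1)+(-1)*p)*x2 + ((-3)+(2)*p)*x3 + ((5)+(-3)*p)*x5 + ((-3)+(2)*p)*x7 + ((1)+(-1)*p)*x8 + ((3)+(-3)*p)*x9 + ((3)*p)*x10 + ((1)*p)*y0 + ((-6)+(3)*p)*y1 + ((2)+(-1)*p)*y2 + ((5)+(-3)*p)*y3 + ((-3)+(2)*p)*y4 + ((-3)+(2)*p)*y5 + ((5)+(-3)*p)*y6 + ((2)+(-1)*p)*y7 + ((-6)+(3)*p)*y8 + ((1)*p)*y9 + ((9))*y10 = 0)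
    (e11 : ((-6)+(3)*p)*x0 + ((-1))*x1 + ((2)+(-1)*p)*x2 + ((-1))*x3 + ((-6)+(3)*p)*x4 + ((1)+(-1)*p)*x6 + ((-3)+(2)*p)*x7 + ((-3)+(2)*p)*x8 + ((1)+(-1)*p)*x9 + ((3)+(-3)*p)*y0 + ((-3)+(2)*p)*y1 + ((-3)+(2)*p)*y2 + ((3)+(-3)*p)*y3 + ((1)+(-1)*p)*y4 + ((-6)+(3)*p)*y5 + ((-1))*y6 + ((5)+(-3)*p)*y7 + ((-1))*y8 + ((-6)+(3)*p)*y9 + ((1)+(-1)*p)*y10 = 0)
    (e12 : ((-6)+(3)*p)*x1 + ((-1))*x2 + ((2)+(-1)*p)*x3 + ((-1))*x4 + ((-6)+(3)*p)*x5 + ((1)+(-1)*p)*x7 + ((-3)+(2)*p)*x8 + ((-3)+(2)*p)*x9 + ((1)+(-1)*p)*x10 + ((1)+(-1)*p)*y0 + ((3)+(-3)*p)*y1 + ((-3)+(2)*p)*y2 + ((-3)+(2)*p)*y3 + ((3)+(-3)*p)*y4 + ((1)+(-1)*p)*y5 + ((-6)+(3)*p)*y6 + ((-1))*y7 + ((5)+(-3)*p)*y8 + ((-1))*y9 + ((-6)+(3)*p)*y10 = 0)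
    (e13 : ((1)+(-1)*p)*x0 + ((-6)+(3)*p)*x2 + ((-1))*x3 + ((2)+(-1)*p)*x4 + ((-1))*x5 + ((-6)+(3)*p)*x6 + ((1)+(-1)*p)*x8 + ((-3)+(2)*p)*x9 + ((-3)+(2)*p)*x10 + ((-6)+(3)*p)*y0 + ((1)+(-1)*p)*y1 + ((3)+(-3)*p)*y2 + ((-3)+(2)*p)*y3 + ((-3)+(2)*p)*y4 + ((3)+(-3)*p)*y5 + ((1)+(-1)*p)*y6 + ((-6)+(3)*p)*y7 + ((-1))*y8 + ((5)+(-3)*p)*y9 + ((-1))*y10 = 0)
    (e14 : ((-3)+(2)*p)*x0 + ((1)+(-1)*p)*x1 + ((-6)+(3)*p)*x3 + ((-1))*x4 + ((2)+(-1)*p)*x5 + ((-1))*x6 + ((-6)+(3)*p)*x7 + ((1)+(-1)*p)*x9 + ((-3)+(2)*p)*x10 + ((-1))*y0 + ((-6)+(3)*p)*y1 + ((1)+(-1)*p)*y2 + ((3)+(-3)*p)*y3 + ((-3)+(2)*p)*y4 + ((-3)+(2)*p)*y5 + ((3)+(-3)*p)*y6 + ((1)+(-1)*p)*y7 + ((-6)+(3)*p)*y8 + ((-1))*y9 + ((5)+(-3)*p)*y10 = 0)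
    (e15 : ((-3)+(2)*p)*x0 + ((-3)+(2)*p)*x1 + ((1)+(-1)*p)*x2 + ((-6)+(3)*p)*x4 + ((-1))*x5 + ((2)+(-1)*p)*x6 + ((-1))*x7 + ((-6)+(3)*p)*x8 + ((1)+(-1)*p)*x10 + ((5)+(-3)*p)*y0 + ((-1))*y1 + ((-6)+(3)*p)*y2 + ((1)+(-1)*p)*y3 + ((3)+(-3)*p)*y4 + ((-3)+(2)*p)*y5 + ((-3)+(2)*p)*y6 + ((3)+(-3)*p)*y7 + ((1)+(-1)*p)*y8 + ((-6)+(3)*p)*y9 + ((-1))*y10 = 0)
    (e16 : ((1)+(-1)*p)*x0 + ((-3)+(2)*p)*x1 + ((-3)+(2)*p)*x2 + ((1)+(-1)*p)*x3 + ((-6)+(3)*p)*x5 + ((-1))*x6 + ((2)+(-1)*p)*x7 + ((-1))*x8 + ((-6)+(3)*p)*x9 + ((-1))*y0 + ((5)+(-3)*p)*y1 + ((-1))*y2 + ((-6)+(3)*p)*y3 + ((1)+(-1)*p)*y4 + ((3)+(-3)*p)*y5 + ((-3)+(2)*p)*y6 + ((-3)+(2)*p)*y7 + ((3)+(-3)*p)*y8 + ((1)+(-1)*p)*y9 + ((-6)+(3)*p)*y10 = 0)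
    (e17 : ((1)+(-1)*p)*x1 + ((-3)+(2)*p)*x2 + ((-3)+(2)*p)*x3 + ((1)+(-1)*p)*x4 + ((-6)+(3)*p)*x6 + ((-1))*x7 + ((2)+(-1)*p)*x8 + ((-1))*x9 + ((-6)+(3)*p)*x10 + ((-6)+(3)*p)*y0 + ((-1))*y1 + ((5)+(-3)*p)*y2 + ((-1))*y3 + ((-6)+(3)*p)*y4 + ((1)+(-1)*p)*y5 + ((3)+(-3)*p)*y6 + ((-3)+(2)*p)*y7 + ((-3)+(2)*p)*y8 + ((3)+(-3)*p)*y9 + ((1)+(-1)*p)*y10 = 0)
    (e18 : ((-6)+(3)*p)*x0 + ((1)+(-1)*p)*x2 + ((-3)+(2)*p)*x3 + ((-3)+(2)*p)*x4 + ((1)+(-1)*p)*x5 + ((-6)+(3)*p)*x7 + ((-1))*x8 + ((2)+(-1)*p)*x9 + ((-1))*x10 + ((1)+(-1)*p)*y0 + ((-6)+(3)*p)*y1 + ((-1))*y2 + ((5)+(-3)*p)*y3 + ((-1))*y4 + ((-6)+(3)*p)*y5 + ((1)+(-1)*p)*y6 + ((3)+(-3)*p)*y7 + ((-3)+(2)*p)*y8 + ((-3)+(2)*p)*y9 + ((3)+(-3)*p)*y10 = 0)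
    (e19 : ((-1))*x0 + ((-6)+(3)*p)*x1 + ((1)+(-1)*p)*x3 + ((-3)+(2)*p)*x4 + ((-3)+(2)*p)*x5 + ((1)+(-1)*p)*x6 + ((-6)+(3)*p)*x8 + ((-1))*x9 + ((2)+(-1)*p)*x10 + ((3)+(-3)*p)*y0 + ((1)+(-1)*p)*y1 + ((-6)+(3)*p)*y2 + ((-1))*y3 + ((5)+(-3)*p)*y4 + ((-1))*y5 + ((-6)+(3)*p)*y6 + ((1)+(-1)*p)*y7 + ((3)+(-3)*p)*y8 + ((-3)+(2)*p)*y9 + ((-3)+(2)*p)*y10 = 0)
    (e20 : ((2)+(-1)*p)*x0 + ((-1))*x1 + ((-6)+(3)*p)*x2 + ((1)+(-1)*p)*x4 + ((-3)+(2)*p)*x5 + ((-3)+(2)*p)*x6 + ((1)+(-1)*p)*x7 + ((-6)+(3)*p)*x9 + ((-1))*x10 + ((-3)+(2)*p)*y0 + ((3)+(-3)*p)*y1 + ((1)+(-1)*p)*y2 + ((-6)+(3)*p)*y3 + ((-1))*y4 + ((5)+(-3)*p)*y5 + ((-1))*y6 + ((-6)+(3)*p)*y7 + ((1)+(-1)*p)*y8 + ((3)+(-3)*p)*y9 + ((-3)+(2)*p)*y10 = 0)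
    (e21 : ((-1))*x0 + ((2)+(-1)*p)*x1 + ((-1))*x2 + ((-6)+(3)*p)*x3 + ((1)+(-1)*p)*x5 + ((-3)+(2)*p)*x6 + ((-3)+(2)*p)*x7 + ((1)+(-1)*p)*x8 + ((-6)+(3)*p)*x10 + ((-3)+(2)*p)*y0 + ((-3)+(2)*p)*y1 + ((3)+(-3)*p)*y2 + ((1)+(-1)*p)*y3 + ((-6)+(3)*p)*y4 + ((-1))*y5 + ((5)+(-3)*p)*y6 + ((-1))*y7 + ((-6)+(3)*p)*y8 + ((1)+(-1)*p)*y9 + ((3)+(-3)*p)*y10 = 0) :
    x0 = 0 ∧ y0 = 0 := by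
  refine ⟨?_, ?_⟩
  · linear_combination ((1/2)+(-1/2)*p)*e1 + ((-3/2)+(1)*p)*e2 + ((1/2)+(-1/2)*p)*e3 + ((-1)+(1/2)*p)*e4 + ((1)+(-1/2)*p)*e5 + ((-1)+(1/2)*p)*e6 + ((1/2)+(-1/2)*p)*e7 + ((-3/2)+(1)*p)*e8 + ((1/2)+(-1/2)*p)*e9 + ((2/5)+(-4/5)*p)*e11 + ((-1/10)+(1/5)*p)*e12 + ((2/5)+(1/5)*p)*e13 + ((-11/10)+(1/5)*p)*e14 + ((-11/10)+(1/5)*p)*e15 + ((2/5)+(1/5)*p)*e16 + ((-1/10)+(1/5)*p)*e17 + ((2/5)+(-4/5)*p)*e18 + ((-1/10)+(1/5)*p)*e19 + ((-1/10)+(-3/10)*p)*e20 + ((-1/10)+(1/5)*p)*e21 - ((-18/5)*x0 + (-3/5)*x1 + (39/10)*x2 + (-3/5)*x3 + (-41/10)*x4 + (19/10)*x5 + (19/10)*x6 + (-41/10)*x7 + (-3/5)*x8 + (39/10)*x9 + (-3/5)*x10 + (33/10)*y0 + (-57/10)*y1 + (3/10)*y2 + (24/5)*y3 + (13/10)*y4 + (-57/10)*y5 + (13/10)*y6 + (24/5)*y7 + (3/10)*y8 + (-57/10)*y9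 + (33/10)*y10)*hp
  · linear_combination ((-13/2)+(4)*p)*e0 + ((5)+(-3)*p)*e1 + ((-4)+(5/2)*p)*e2 + ((4)+(-5/2)*p)*e3 + ((-1/2)+(1/2)*p)*e4 + ((3/2)+(-1)*p)*e5 + ((3/2)+(-1)*p)*e6 + ((-1/2)+(1/2)*p)*e7 + ((4)+(-5/2)*p)*e8 + ((-4)+(5/2)*p)*e9 + ((5)+(-3)*p)*e10 + ((-4/5)+(3/5)*p)*e11 + ((6/5)+(-2/5)*p)*e12 + ((-9/5)+(3/5)*p)*e13 + ((11/5)+(-7/5)*p)*e14 + ((-4/5)+(11/10)*p)*e15 + ((11/5)+(-7/5)*p)*e16 + ((-9/5)+(3/5)*p)*e17 + ((6/5)+(-2/5)*p)*e18 + ((-4/5)+(3/5)*p)*e19 + ((7/10)+(-2/5)*p)*e20 + ((7/10)+(-2/5)*p)*e21 - ((47/10)*x0 + (47/10)*x1 + (-43/10)*x2 + (1/5)*x3 + (-3/10)*x4 + (6/5)*x5 + (-63/10)*x6 + (6/5)*x7 + (-3/10)*x8 + (1/5)*x9 + (-43/10)*x10 + (29/10)*y0 + (-31/10)*y1 + (42/5)*y2 + (-33/5)*y3 + (-61/10)*y4 + (2/5)*y5 + (2/5)*y6 + (-61/10)*y7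 + (-33/5)*y8 + (42/5)*y9 + (-31/10)*y10)*hp

abbrev Mx := Matrix (Fin 11) (Fin 11) ℝ
def kk (p : ℝ) : Fin 11 → ℝ := ![3, p, 0, 1 - p, p - 2, 0, 0, p - 2, 1 - p, 0, p]
def ss (p : ℝ) : Fin 11 → ℝ := ![1, 1 - p, 2 * p - 3, 0, 0, 0, 0, 0, 0, 2 * p - 3, 1 - p]

theorem s11 (f : Fin 11 → ℝ) : ∑ i, f i =
    f 0 + f 1 + f 2 + f 3 + f 4 + f 5 + f 6 + f 7 + f 8 + f 9 + f 10 := by
  simp [Fin.sum_univ_succ]; ring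

theorem form (X K : Mx) (hs : ∀ i j, X j i = X i j)
    (h0 : ∀ i j, ¬ (j = i + 1 ∨ i = j + 1 ∨ j = i + 2 ∨ i = j + 2) → X i j = 0) (i j : Fin 11) :
    (K * X * K) i j = ∑ k, (X k (k + 1) * (K i k * K (k + 1) j + K i (k + 1) * K k j) +
      X k (k + 2) * (K i k * K (k + 2) j + K i (k + 2) * K k j)) := by
  have e : ∀ k l, X k l = (if l = k + 1 then X k (k + 1) else 0) + (if k = l + 1 then X l (l + 1) else 0) +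
      (if l = k + 2 then X k (k + 2) else 0) + (if k = l + 2 then X l (l + 2) else 0) := fun k l => by
    have d1 : ∀ k l : Fin 11, l = k + 1 → k ≠ l + 1 ∧ l ≠ k + 2 ∧ k ≠ l + 2 := by decide
    have d2 : ∀ k l : Fin 11, l = k + 2 → k ≠ l + 2 := by decide
    by_cases a : l = k + 1
    · obtain ⟨b, c, d⟩ := d1 k l a
      rw [if_pos a, if_neg b, if_neg c, if_neg d, a]; simp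
    by_cases b : k = l + 1
    · obtain ⟨-, c, d⟩ := d1 l k b
      rw [if_neg a, if_pos b, if_neg c, if_neg d, ← b, hs]; simp
    by_cases c : l = k + 2
    · rw [if_neg a, if_neg b, if_pos c, if_neg (d2 k l c), c]; simp
    by_cases d : k = l + 2
    · rw [if_neg a, if_neg b, if_neg c, if_pos d, ← d, hs]; simp
    rw [if_neg a, if_neg b, if_neg c, if_neg d, h0 k l (by tauto)]; simp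
  have : (K * X * K) i j = ∑ k, ∑ l, K i k * X k l * K l j := by
    simp only [mul_apply, Finset.sum_mul]
    exact Finset.sum_comm
  rw [this]
  conv_lhs => enter [2, k, 2, l]; rw [e k l]
  simp only [mul_add, add_mul, Finset.sum_add_distrib, mul_ite, ite_mul, mul_zero, zero_mul]
  rw [Finset.sum_comm (f := fun k l => if k = l + 1 then _ else _),
    Finset.sum_comm (f := fun k l => if k = l + 2 then _ else _)]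
  simp only [Finset.sum_ite_eq', Finset.mem_univ, if_true, ← Finset.sum_add_distrib]
  congr! 1 with k
  ring

theorem inj0 {p : ℝ} (hp : p ^ 2 = p + 1) (X : Mx) (hs : ∀ i j, X j i = X i j)
    (h0 : ∀ i j, ¬ (j = i + 1 ∨ i = j + 1 ∨ j = i + 2 ∨ i = j + 2) → X i j = 0)
    (h1 : ∀ i j, j = i + 2 ∨ j = i + 5 → (circulant (kk p) * X * circulant (kk p)) i j = 0) :
    X 0 1 = 0 ∧ X 0 2 = 0 := by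
  have E := fun i j h => (form X _ hs h0 i j).symm.trans (h1 i j h)
  exact lin (x0 := X 0 1) (x1 := X 1 2) (x2 := X 2 3) (x3 := X 3 4) (x4 := X 4 5) (x5 := X 5 6) (x6 := X 6 7) (x7 := X 7 8) (x8 := X 8 9) (x9 := X 9 10) (x10 := X 10 0)
    (y0 := X 0 2) (y1 := X 1 3) (y2 := X 2 4) (y3 := X 3 5) (y4 := X 4 6) (y5 := X 5 7) (y6 := X 6 8) (y7 := X 7 9) (y8 := X 8 10) (y9 := X 9 0) (y10 := X 10 1) hp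
    (by have := E 0 2 (by decide); simp only [s11, circulant_apply, Fin.reduceAdd, Fin.reduceSub, kk, cons_val] at this; linear_combination this - ((1)*X 3 4 + (-1)*X 4 5 + (1)*X 6 7 + (-1)*X 8 9 + (1)*X 9 10 + (1)*X 3 5 + (1)*X 4 6 + (-1)*X 5 7 + (-1)*X 6 8 + (1)*X 7 9 + (1)*X 8 10)*hp)
    (by have := E 1 3 (by decide); simp only [s11, circulant_apply, Fin.reduceAdd, Fin.reduceSub, kk, cons_val] at this; linear_combination this - ((1)*X 4 5 + (-1)*X 5 6 + (1)*X 7 8 + (-1)*X 9 10 + (1)*X 10 0 + (1)*X 4 6 + (1)*X 5 7 + (-1)*X 6 8 + (-1)*X 7 9 + (1)*X 8 10 + (1)*X 9 0)*hp)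
    (by have := E 2 4 (by decide); simp only [s11, circulant_apply, Fin.reduceAdd, Fin.reduceSub, kk, cons_val] at this; linear_combination this - ((1)*X 0 1 + (1)*X 5 6 + (-1)*X 6 7 + (1)*X 8 9 + (-1)*X 10 0 + (1)*X 5 7 + (1)*X 6 8 + (-1)*X 7 9 + (-1)*X 8 10 + (1)*X 9 0 + (1)*X 10 1)*hp)
    (by have := E 3 5 (by decide); simp only [s11, circulant_apply, Fin.reduceAdd, Fin.reduceSub, kk, cons_val] at this; linear_combination this - ((-1)*X 0 1 + (1)*X 1 2 + (1)*X 6 7 + (-1)*X 7 8 + (1)*X 9 10 + (1)*X 0 2 + (1)*X 6 8 + (1)*X 7 9 + (-1)*X 8 10 + (-1)*X 9 0 + (1)*X 10 1)*hp)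
    (by have := E 4 6 (by decide); simp only [s11, circulant_apply, Fin.reduceAdd, Fin.reduceSub, kk, cons_val] at this; linear_combination this - ((-1)*X 1 2 + (1)*X 2 3 + (1)*X 7 8 + (-1)*X 8 9 + (1)*X 10 0 + (1)*X 0 2 + (1)*X 1 3 + (1)*X 7 9 + (1)*X 8 10 + (-1)*X 9 0 + (-1)*X 10 1)*hp)
    (by have := E 5 7 (by decide); simp only [s11, circulant_apply, Fin.reduceAdd, Fin.reduceSub, kk, cons_val] at this; linear_combination this - ((1)*X 0 1 + (-1)*X 2 3 + (1)*X 3 4 + (1)*X 8 9 + (-1)*X 9 10 + (-1)*X 0 2 + (1)*X 1 3 + (1)*X 2 4 + (1)*X 8 10 + (1)*X 9 0 + (-1)*X 10 1)*hp)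
    (by have := E 6 8 (by decide); simp only [s11, circulant_apply, Fin.reduceAdd, Fin.reduceSub, kk, cons_val] at this; linear_combination this - ((1)*X 1 2 + (-1)*X 3 4 + (1)*X 4 5 + (1)*X 9 10 + (-1)*X 10 0 + (-1)*X 0 2 + (-1)*X 1 3 + (1)*X 2 4 + (1)*X 3 5 + (1)*X 9 0 + (1)*X 10 1)*hp)
    (by have := E 7 9 (by decide); simp only [s11, circulant_apply, Fin.reduceAdd, Fin.reduceSub, kk, cons_val] at this; linear_combination this - ((-1)*X 0 1 + (1)*X 2 3 + (-1)*X 4 5 + (1)*X 5 6 + (1)*X 10 0 + (1)*X 0 2 + (-1)*X 1 3 + (-1)*X 2 4 + (1)*X 3 5 + (1)*X 4 6 + (1)*X 10 1)*hp)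
    (by have := E 8 10 (by decide); simp only [s11, circulant_apply, Fin.reduceAdd, Fin.reduceSub, kk, cons_val] at this; linear_combination this - ((1)*X 0 1 + (-1)*X 1 2 + (1)*X 3 4 + (-1)*X 5 6 + (1)*X 6 7 + (1)*X 0 2 + (1)*X 1 3 + (-1)*X 2 4 + (-1)*X 3 5 + (1)*X 4 6 + (1)*X 5 7)*hp)
    (by have := E 9 0 (by decide); simp only [s11, circulant_apply, Fin.reduceAdd, Fin.reduceSub, kk, cons_val] at this; linear_combination this - ((1)*X 1 2 + (-1)*X 2 3 + (1)*X 4 5 + (-1)*X 6 7 + (1)*X 7 8 + (1)*X 1 3 + (1)*X 2 4 + (-1)*X 3 5 + (-1)*X 4 6 + (1)*X 5 7 + (1)*X 6 8)*hp)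
    (by have := E 10 1 (by decide); simp only [s11, circulant_apply, Fin.reduceAdd, Fin.reduceSub, kk, cons_val] at this; linear_combination this - ((1)*X 2 3 + (-1)*X 3 4 + (1)*X 5 6 + (-1)*X 7 8 + (1)*X 8 9 + (1)*X 2 4 + (1)*X 3 5 + (-1)*X 4 6 + (-1)*X 5 7 + (1)*X 6 8 + (1)*X 7 9)*hp)
    (by have := E 0 5 (by decide); simp only [s11, circulant_apply, Fin.reduceAdd, Fin.reduceSub, kk, cons_val] at this; linear_combination this - ((-1)*X 1 2 + (1)*X 2 3 + (-1)*X 3 4 + (1)*X 6 7 + (-1)*X 7 8 + (-1)*X 8 9 + (1)*X 9 10 + (-1)*X 1 3 + (-1)*X 2 4 + (1)*X 4 6 + (-1)*X 6 8 + (1)*X 7 9 + (-1)*X 8 10 + (1)*X 10 1)*hp)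
    (by have := E 1 6 (by decide); simp only [s11, circulant_apply, Fin.reduceAdd, Fin.reduceSub, kk, cons_val] at this; linear_combination this - ((-1)*X 2 3 + (1)*X 3 4 + (-1)*X 4 5 + (1)*X 7 8 + (-1)*X 8 9 + (-1)*X 9 10 + (1)*X 10 0 + (1)*X 0 2 + (-1)*X 2 4 + (-1)*X 3 5 + (1)*X 5 7 + (-1)*X 7 9 + (1)*X 8 10 + (-1)*X 9 0)*hp)
    (by have := E 2 7 (by decide); simp only [s11, circulant_apply, Fin.reduceAdd, Fin.reduceSub, kk, cons_val] at this; linear_combination this - ((1)*X 0 1 + (-1)*X 3 4 + (1)*X 4 5 + (-1)*X 5 6 + (1)*X 8 9 + (-1)*X 9 10 + (-1)*X 10 0 + (1)*X 1 3 + (-1)*X 3 5 + (-1)*X 4 6 + (1)*X 6 8 + (-1)*X 8 10 + (1)*X 9 0 + (-1)*X 10 1)*hp)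
    (by have := E 3 8 (by decide); simp only [s11, circulant_apply, Fin.reduceAdd, Fin.reduceSub, kk, cons_val] at this; linear_combination this - ((-1)*X 0 1 + (1)*X 1 2 + (-1)*X 4 5 + (1)*X 5 6 + (-1)*X 6 7 + (1)*X 9 10 + (-1)*X 10 0 + (-1)*X 0 2 + (1)*X 2 4 + (-1)*X 4 6 + (-1)*X 5 7 + (1)*X 7 9 + (-1)*X 9 0 + (1)*X 10 1)*hp)
    (by have := E 4 9 (by decide); simp only [s11, circulant_apply, Fin.reduceAdd, Fin.reduceSub, kk, cons_val] at this; linear_combination this - ((-1)*X 0 1 + (-1)*X 1 2 + (1)*X 2 3 + (-1)*X 5 6 + (1)*X 6 7 + (-1)*X 7 8 + (1)*X 10 0 + (1)*X 0 2 + (-1)*X 1 3 + (1)*X 3 5 + (-1)*X 5 7 + (-1)*X 6 8 + (1)*X 8 10 + (-1)*X 10 1)*hp)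
    (by have := E 5 10 (by decide); simp only [s11, circulant_apply, Fin.reduceAdd, Fin.reduceSub, kk, cons_val] at this; linear_combination this - ((1)*X 0 1 + (-1)*X 1 2 + (-1)*X 2 3 + (1)*X 3 4 + (-1)*X 6 7 + (1)*X 7 8 + (-1)*X 8 9 + (-1)*X 0 2 + (1)*X 1 3 + (-1)*X 2 4 + (1)*X 4 6 + (-1)*X 6 8 + (-1)*X 7 9 + (1)*X 9 0)*hp)
    (by have := E 6 0 (by decide); simp only [s11, circulant_apply, Fin.reduceAdd, Fin.reduceSub, kk, cons_val] at this; linear_combination this - ((1)*X 1 2 + (-1)*X 2 3 + (-1)*X 3 4 + (1)*X 4 5 + (-1)*X 7 8 + (1)*X 8 9 + (-1)*X 9 10 + (-1)*X 1 3 + (1)*X 2 4 + (-1)*X 3 5 + (1)*X 5 7 + (-1)*X 7 9 + (-1)*X 8 10 + (1)*X 10 1)*hp)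
    (by have := E 7 1 (by decide); simp only [s11, circulant_apply, Fin.reduceAdd, Fin.reduceSub, kk, cons_val] at this; linear_combination this - ((1)*X 2 3 + (-1)*X 3 4 + (-1)*X 4 5 + (1)*X 5 6 + (-1)*X 8 9 + (1)*X 9 10 + (-1)*X 10 0 + (1)*X 0 2 + (-1)*X 2 4 + (1)*X 3 5 + (-1)*X 4 6 + (1)*X 6 8 + (-1)*X 8 10 + (-1)*X 9 0)*hp)
    (by have := E 8 2 (by decide); simp only [s11, circulant_apply, Fin.reduceAdd, Fin.reduceSub, kk, cons_val] at this; linear_combination this - ((-1)*X 0 1 + (1)*X 3 4 + (-1)*X 4 5 + (-1)*X 5 6 + (1)*X 6 7 + (-1)*X 9 10 + (1)*X 10 0 + (1)*X 1 3 + (-1)*X 3 5 + (1)*X 4 6 + (-1)*X 5 7 + (1)*X 7 9 + (-1)*X 9 0 + (-1)*X 10 1)*hp)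
    (by have := E 9 3 (by decide); simp only [s11, circulant_apply, Fin.reduceAdd, Fin.reduceSub, kk, cons_val] at this; linear_combination this - ((1)*X 0 1 + (-1)*X 1 2 + (1)*X 4 5 + (-1)*X 5 6 + (-1)*X 6 7 + (1)*X 7 8 + (-1)*X 10 0 + (-1)*X 0 2 + (1)*X 2 4 + (-1)*X 4 6 + (1)*X 5 7 + (-1)*X 6 8 + (1)*X 8 10 + (-1)*X 10 1)*hp)
    (by have := E 10 4 (by decide); simp only [s11, circulant_apply, Fin.reduceAdd, Fin.reduceSub, kk, cons_val] at this; linear_combination this - ((-1)*X 0 1 + (1)*X 1 2 + (-1)*X 2 3 + (1)*X 5 6 + (-1)*X 6 7 + (-1)*X 7 8 + (1)*X 8 9 + (-1)*X 0 2 + (-1)*X 1 3 + (1)*X 3 5 + (-1)*X 5 7 + (1)*X 6 8 + (-1)*X 7 9 + (1)*X 9 0)*hp)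

end Pool.Agent.H.MP_e0e142_ag
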